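import Pool.Agent.H90.STE.Stmts
import Pool.Agent.H31.STK.WIN
import Pool.Agent.H80.STK.RFN
import Pool.Agent.H41.STK.MUL
import Pool.Agent.H32.Dense.Pair

/-!
# Sticky families of lines with a random time: the family seen in a window of times
-/

set_option autoImplicit false

namespace Pool.STE

open Finset Real
open Pool.Agent.H49.Ent Pool.Agent.H32.Dense Pool.STK Pool.KA

namespace WF34

/-- Windows of times with a random beginning `τ`, known to the side information. -/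
theorem win {m : ℕ} {Ω ζ : Type} [Fintype Ω] (p : Ω → ℝ) (u d : Ω → Fin m → ℝ) (Z : Ω → ζ)
    (hp : IsLaw p) (k : ℕ) (τ : Ω → ℝ) (h0 : ∀ ω, 0 ≤ τ ω) (h1 : ∀ ω, τ ω ≤ 1)
    (hτ : ∀ ω ω', Z ω = Z ω' → τ ω = τ ω') (j : ℕ) :
    CH p (Fl (fun ω i => u ω i + τ ω * d ω i) j)
        (fun ω => (Fl (fun ω i => (2 ^ k)⁻¹ * d ω i) j ω, Z ω)) ≤
      CH p (Fl u j) (fun ω => (Fl d j ω, Z ω)) + m * (k * Real.log 2) + 2 * cc m := by
  have h2k : (0 : ℝ) < 2 ^ k := by positivity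
  have h2j : (0 : ℝ) < 2 ^ j := by positivity
  set dw : Ω → Fin m → ℝ := fun ω i => (2 ^ k)⁻¹ * d ω i with hdw
  set x : Ω → Fin m → ℝ := fun ω i => u ω i + τ ω * d ω i with hx
  have e1 := CH_le_add hp.nonneg (Fl x j) (Fl d j) (fun ω => (Fl dw j ω, Z ω))
  have e2 : CH p (Fl d j) (fun ω => (Fl dw j ω, Z ω)) ≤ m * Real.log (2 * (2 ^ k + 1) + 1) := by
    refine WIN.CH_le_vec_const hp _ _ (2 ^ k + 1) ?_
    intro ω ω' h i
    have h3 : Fl dw j ω = Fl dw j ω' := (Prod.ext_iff.mp h).1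
    have h4 : ⌊2 ^ j * dw ω i⌋ = ⌊2 ^ j * dw ω' i⌋ := congrFun h3 i
    have h5 := WIN.close_of_floor_eq h4
    have h6 := WIN.floor_var (2 ^ j * d ω i) (2 ^ j * d ω' i)
    have h7 : 2 ^ j * d ω i - 2 ^ j * d ω' i = 2 ^ k * (2 ^ j * dw ω i - 2 ^ j * dw ω' i) := by
      simp only [hdw]
      field_simp
    have h8 : |2 ^ j * d ω i - 2 ^ j * d ω' i| ≤ 2 ^ k := by
      rw [h7, abs_mul, abs_of_pos h2k]
      nlinarith
    have h9 : Fl d j ω i - Fl d j ω' i = ⌊2 ^ j * d ω i⌋ - ⌊2 ^ j * d ω' i⌋ := rfl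
    rw [h9]
    linarith
  have e3 : CH p (Fl x j) (fun ω => (Fl d j ω, (Fl dw j ω, Z ω))) ≤
      CH p (Fl x j) (fun ω => (Fl d j ω, Z ω)) := by
    refine CH_mono_cond hp.nonneg ?_
    intro ω ω' _ _ h
    simp only [Prod.mk.injEq] at h ⊢
    exact ⟨h.1, h.2.2⟩
  have e4 := CH_le_add hp.nonneg (Fl x j) (Fl u j) (fun ω => (Fl d j ω, Z ω))
  have e5 : CH p (Fl x j) (fun ω => (Fl u j ω, (Fl d j ω, Z ω))) ≤
      m * Real.log (2 * 3 + 1) := by
    refine WIN.CH_le_vec_const hp _ _ 3 ?_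
    intro ω ω' h i
    simp only [Prod.mk.injEq] at h
    have ht : τ ω = τ ω' := hτ ω ω' h.2.2
    have h4 : ⌊2 ^ j * u ω i⌋ = ⌊2 ^ j * u ω' i⌋ := congrFun h.1 i
    have h4' : ⌊2 ^ j * d ω i⌋ = ⌊2 ^ j * d ω' i⌋ := congrFun h.2.1 i
    have h5 := WIN.close_of_floor_eq h4
    have h5' := WIN.close_of_floor_eq h4'
    have h6 := WIN.floor_var (2 ^ j * x ω i) (2 ^ j * x ω' i)
    have h7 : 2 ^ j * x ω i - 2 ^ j * x ω' i =
        (2 ^ j * u ω i - 2 ^ j * u ω' i) + τ ω * (2 ^ j * d ω i - 2 ^ j * d ω' i) := by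
      simp only [hx]
      rw [← ht]
      ring
    have h8 : |2 ^ j * x ω i - 2 ^ j * x ω' i| ≤ 2 := by
      rw [h7]
      refine (abs_add_le _ _).trans ?_
      rw [abs_mul, abs_of_nonneg (h0 ω)]
      nlinarith [abs_nonneg (2 ^ j * d ω i - 2 ^ j * d ω' i), h0 ω, h1 ω]
    have h9 : Fl x j ω i - Fl x j ω' i = ⌊2 ^ j * x ω i⌋ - ⌊2 ^ j * x ω' i⌋ := rfl
    rw [h9]
    linarith
  have e6 : (m : ℝ) * Real.log (2 * (2 ^ k + 1) + 1) ≤ m * (k * Real.log 2) + cc m := by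
    have := mul_le_mul_of_nonneg_left (WIN.log_two_pow k) (Nat.cast_nonneg (α := ℝ) m)
    unfold cc
    linarith
  have e7 : (m : ℝ) * Real.log (2 * 3 + 1) ≤ cc m := by
    unfold cc
    refine mul_le_mul_of_nonneg_left (Real.log_le_log (by norm_num) (by norm_num))
      (Nat.cast_nonneg m)
  linarith

/-- The entropy of a natural number smaller than `2 ^ a`. -/
theorem CH_le_two_pow {Ω : Type} {β : Type} [Fintype Ω] {p : Ω → ℝ} (hp : IsLaw p) (T : Ω → ℕ)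
    (W : Ω → β) (a : ℕ) (hT : ∀ ω, T ω < 2 ^ a) : CH p T W ≤ a * Real.log 2 := by
  have h := CH_le_card hp.nonneg hp.sum_one T W (fun _ => Finset.range (2 ^ a))
    (fun ω _ => Finset.mem_range.mpr (hT ω))
  rw [Ex_const hp.sum_one, Finset.card_range] at h
  rw [← Real.log_pow]
  exact_mod_cast h

variable {m J : ℕ}

/-- the first digits of the time are smaller than `2 ^ k` -/
theorem T1_lt (F : Fam m J) (k : ℕ) (hk : k ≤ J) (ω : F.Ω) : F.T1 k ω < 2 ^ k := by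
  unfold Fam.T1
  rw [Nat.div_lt_iff_lt_mul (by positivity), ← pow_add]
  have h := F.tim ω
  have e : k + (J - k) = J := Nat.add_sub_cancel' hk
  rwa [e]

/-- The family. -/
noncomputable def Q (F : Fam m J) (k N : ℕ) (hk : k ≤ J) (hl : IsLaw (pT F k N)) : Fam m J where
  Ω := F.Ω × (Fin N → F.Ω)
  ζ := (Fin N → Fin m → ℤ) × (ℕ × F.ζ)
  fin := inferInstance
  p := pT F k N
  u := fun w => F.x1 k w.1
  d := fun w i => (2 ^ k)⁻¹ * F.d w.1 i
  T := fun w => 2 ^ k * (F.T w.1 % 2 ^ (J - k))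
  Z := fun w => (yT F k N w, (F.T1 k w.1, F.Z w.1))
  isLaw := hl
  dir := fun w i => by
    rw [abs_mul, abs_of_pos (by positivity)]
    have h1 : ((2 : ℝ) ^ k)⁻¹ ≤ 1 := inv_le_one_of_one_le₀ (one_le_pow₀ (by norm_num))
    have h2 := F.dir w.1 i
    have h3 : (0 : ℝ) ≤ ((2 : ℝ) ^ k)⁻¹ := by positivity
    nlinarith [abs_nonneg (F.d w.1 i)]
  tim := fun w => by
    have h : F.T w.1 % 2 ^ (J - k) < 2 ^ (J - k) := Nat.mod_lt _ (by positivity)
    have e : 2 ^ k * 2 ^ (J - k) = 2 ^ J := by rw [← pow_add, Nat.add_sub_cancel' hk]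
    rw [← e]
    exact Nat.mul_lt_mul_of_pos_left h (by positivity)

/-- the positions are the same -/
theorem Q_x (F : Fam m J) (k N : ℕ) (hk : k ≤ J) (hl : IsLaw (pT F k N))
    (w : F.Ω × (Fin N → F.Ω)) : (Q F k N hk hl).x w = F.x w.1 := by
  funext i
  unfold Fam.x Fam.t
  change F.x1 k w.1 i + (((2 ^ k * (F.T w.1 % 2 ^ (J - k)) : ℕ) : ℝ) / 2 ^ J) *
    ((2 ^ k)⁻¹ * F.d w.1 i) = F.u w.1 i + (F.T w.1 : ℝ) / 2 ^ J * F.d w.1 i
  unfold Fam.x1 Fam.T1
  have hdm : ((F.T w.1 : ℕ) : ℝ) = 2 ^ (J - k) * ((F.T w.1 / 2 ^ (J - k) : ℕ) : ℝ) +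
      ((F.T w.1 % 2 ^ (J - k) : ℕ) : ℝ) := by
    have := Nat.div_add_mod (F.T w.1) (2 ^ (J - k))
    exact_mod_cast this.symm
  have hJ : (2 : ℝ) ^ J = 2 ^ (J - k) * 2 ^ k := by rw [← pow_add, Nat.sub_add_cancel hk]
  rw [hJ]
  push_cast at hdm ⊢
  rw [hdm]
  field_simp
  ring

/-- the time is determined by its parts -/
theorem T_eq (F : Fam m J) (k : ℕ) (ω ω' : F.Ω)
    (h1 : 2 ^ k * (F.T ω % 2 ^ (J - k)) = 2 ^ k * (F.T ω' % 2 ^ (J - k)))
    (h2 : F.T1 k ω = F.T1 k ω') : F.T ω = F.T ω' := by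
  have h3 : F.T ω % 2 ^ (J - k) = F.T ω' % 2 ^ (J - k) :=
    Nat.eq_of_mul_eq_mul_left (by positivity) h1
  have a := Nat.div_add_mod (F.T ω) (2 ^ (J - k))
  have b := Nat.div_add_mod (F.T ω') (2 ^ (J - k))
  unfold Fam.T1 at h2
  rw [← a, ← b, h2, h3]

/-- the line is determined by the new line and the first digits of the time -/
theorem l_eq (F : Fam m J) (k : ℕ) (ω ω' : F.Ω) (h1 : F.x1 k ω = F.x1 k ω')
    (h2 : (fun i => ((2 : ℝ) ^ k)⁻¹ * F.d ω i) = fun i => ((2 : ℝ) ^ k)⁻¹ * F.d ω' i)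
    (h3 : F.T1 k ω = F.T1 k ω') : F.l ω = F.l ω' := by
  have hk : ((2 : ℝ) ^ k)⁻¹ ≠ 0 := by positivity
  have hd : F.d ω = F.d ω' := by
    funext i
    exact mul_left_cancel₀ hk (congrFun h2 i)
  have hu : F.u ω = F.u ω' := by
    funext i
    have h := congrFun h1 i
    unfold Fam.x1 at h
    rw [h3, hd] at h
    linarith
  exact Prod.ext hu hd

end WF34

open WF34

/-- **The family of the lines seen in the window of length `2 ^ (-k)` of the time.** -/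
theorem wf (hTN : TNStmt) : WFStmt := by
  intro m J F k N e ε hk hTm hS
  obtain ⟨hl, hM, -⟩ := mul_thm F.Ω _ N F.p (fun r : Fin N => bT F k r) F.isLaw
  change IsLaw (pT F k N) at hl
  change Marg (pT F k N) F.p (fun w => w.1) at hM
  have hp := F.isLaw.nonneg
  have hq := hl.nonneg
  have hTN' := hTN m J F k N e hk hTm
  refine ⟨Q F k N hk hl, ?_, ?_, ?_, ?_⟩
  · -- the time
    unfold Fam.Tm
    unfold Fam.Tm at hTm
    have c0 : CH (pT F k N) (fun w => F.T w.1)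
        (fun w => (yT F k N w, (F.l w.1, (F.T1 k w.1, F.Z w.1)))) ≤
        CH (Q F k N hk hl).p (Q F k N hk hl).T
          (fun ω => ((Q F k N hk hl).l ω, (Q F k N hk hl).Z ω)) := by
      change _ ≤ CH (pT F k N) (fun w => 2 ^ k * (F.T w.1 % 2 ^ (J - k)))
        (fun w => ((F.x1 k w.1, fun i => ((2 : ℝ) ^ k)⁻¹ * F.d w.1 i),
          (yT F k N w, (F.T1 k w.1, F.Z w.1))))
      refine le_trans (CH_mono_cond hq (W := fun w => ((F.x1 k w.1, fun i =>
          ((2 : ℝ) ^ k)⁻¹ * F.d w.1 i), (yT F k N w, (F.T1 k w.1, F.Z w.1)))) ?_)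
        (CH_mono_left hq ?_)
      · intro w w' _ _ h
        simp only [Prod.mk.injEq] at h ⊢
        obtain ⟨a1, a2, a3, a4⟩ := h
        have hu : F.u w.1 = F.u w'.1 := (Prod.ext_iff.mp a2).1
        have hd : F.d w.1 = F.d w'.1 := (Prod.ext_iff.mp a2).2
        refine ⟨⟨?_, ?_⟩, a1, a3, a4⟩
        · funext i
          unfold Fam.x1
          rw [a3, hu, hd]
        · rw [hd]
      · intro w w' _ _ h
        simp only [Prod.mk.injEq] at h
        exact T_eq F k w.1 w'.1 h.1 h.2.2.2.1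
    have c1 := CH_bayes hq (fun w : F.Ω × (Fin N → F.Ω) => F.T w.1) (yT F k N)
      (fun w => (F.l w.1, (F.T1 k w.1, F.Z w.1)))
    have c2 : CH (pT F k N) (fun w => F.T w.1) (fun w => (F.l w.1, (F.T1 k w.1, F.Z w.1))) =
        CH F.p F.T (fun ω => (F.l ω, (F.T1 k ω, F.Z ω))) :=
      hM.CH F.T (fun ω => (F.l ω, (F.T1 k ω, F.Z ω)))
    have c3 : CH (pT F k N) (yT F k N) (fun w => w.1) ≤
        CH (pT F k N) (yT F k N) (fun w => (F.T w.1, (F.l w.1, (F.T1 k w.1, F.Z w.1)))) := by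
      refine CH_mono_cond hq ?_
      intro w w' _ _ h
      simp only at h ⊢
      rw [h]
    have c4 := CH_bayes hp F.T (F.T1 k) (fun ω => (F.l ω, F.Z ω))
    have c5 : CH F.p F.T (fun ω => (F.T1 k ω, (F.l ω, F.Z ω))) =
        CH F.p F.T (fun ω => (F.l ω, (F.T1 k ω, F.Z ω))) := by
      refine CH_congr hp (fun _ _ _ _ h => (Prod.ext_iff.mp h).1)
        (fun _ _ _ _ h => (Prod.ext_iff.mp h).1) ?_ ?_
      · intro ω ω' _ _ h
        simp only [Prod.mk.injEq] at h ⊢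
        exact ⟨h.2.1, h.1, h.2.2⟩
      · intro ω ω' _ _ h
        simp only [Prod.mk.injEq] at h ⊢
        exact ⟨h.2.1, h.1, h.2.2⟩
    have c6 := CH_nonneg hp (F.T1 k) (fun ω => (F.T ω, (F.l ω, F.Z ω)))
    have c7 := CH_le_two_pow F.isLaw (F.T1 k) (fun ω => (F.l ω, F.Z ω)) k (T1_lt F k hk)
    linarith
  · -- stickiness
    intro j hj
    change CH (pT F k N) (Fl (fun w : F.Ω × (Fin N → F.Ω) => F.x1 k w.1) j)
      (fun w => (fl j (fun i => ((2 : ℝ) ^ k)⁻¹ * F.d w.1 i),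
        (yT F k N w, (F.T1 k w.1, F.Z w.1)))) ≤ _
    have c1 : CH (pT F k N) (Fl (fun w : F.Ω × (Fin N → F.Ω) => F.x1 k w.1) j)
        (fun w => (fl j (fun i => ((2 : ℝ) ^ k)⁻¹ * F.d w.1 i),
          (yT F k N w, (F.T1 k w.1, F.Z w.1)))) ≤
        CH (pT F k N) (Fl (fun w : F.Ω × (Fin N → F.Ω) => F.x1 k w.1) j)
        (fun w => (fl j (fun i => ((2 : ℝ) ^ k)⁻¹ * F.d w.1 i), (F.T1 k w.1, F.Z w.1))) := by
      refine CH_mono_cond hq ?_
      intro w w' _ _ h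
      simp only [Prod.mk.injEq] at h ⊢
      exact ⟨h.1, h.2.2⟩
    have c2 : CH (pT F k N) (Fl (fun w : F.Ω × (Fin N → F.Ω) => F.x1 k w.1) j)
        (fun w => (fl j (fun i => ((2 : ℝ) ^ k)⁻¹ * F.d w.1 i), (F.T1 k w.1, F.Z w.1))) =
        CH F.p (Fl (F.x1 k) j)
          (fun ω => (Fl (fun ω i => ((2 : ℝ) ^ k)⁻¹ * F.d ω i) j ω, (F.T1 k ω, F.Z ω))) :=
      hM.CH (Fl (F.x1 k) j)
        (fun ω => (Fl (fun ω i => ((2 : ℝ) ^ k)⁻¹ * F.d ω i) j ω, (F.T1 k ω, F.Z ω)))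
    have c3 := win F.p F.u F.d (fun ω => (F.T1 k ω, F.Z ω)) F.isLaw k
      (fun ω => (F.T1 k ω : ℝ) / 2 ^ k) (fun ω => by positivity)
      (fun ω => by
        rw [div_le_one (by positivity)]
        exact_mod_cast (T1_lt F k hk ω).le)
      (fun ω ω' h => by
        have := (Prod.ext_iff.mp h).1
        simp only at this
        rw [this]) j
    have c4 : CH F.p (Fl F.u j) (fun ω => (Fl F.d j ω, (F.T1 k ω, F.Z ω))) ≤
        CH F.p (Fl F.u j) (fun ω => (F.D j ω, F.Z ω)) := by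
      refine CH_mono_cond hp ?_
      intro ω ω' _ _ h
      simp only [Prod.mk.injEq] at h ⊢
      exact ⟨h.1, h.2.2⟩
    have c5 := hS j hj
    have c6 : (fun ω i => F.u ω i + (F.T1 k ω : ℝ) / 2 ^ k * F.d ω i) = F.x1 k := rfl
    rw [c6] at c3
    rw [c2] at c1
    linarith
  · -- directions
    have hD : (Q F k N hk hl).D J = fun w => Fl F.d (J - k) w.1 := by
      funext w
      change fl J (fun i => ((2 : ℝ) ^ k)⁻¹ * F.d w.1 i) = fl (J - k) (F.d w.1)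
      funext i
      unfold fl rd
      congr 1
      have hJ : (2 : ℝ) ^ J = 2 ^ (J - k) * 2 ^ k := by rw [← pow_add, Nat.sub_add_cancel hk]
      rw [hJ]
      field_simp
    rw [hD]
    change _ ≤ CH (pT F k N) (fun w => Fl F.d (J - k) w.1)
      (fun w => (yT F k N w, (F.T1 k w.1, F.Z w.1)))
    have r1 := rfn_thm m (F.Ω × (Fin N → F.Ω)) _ (pT F k N) (fun w => F.d w.1)
      (fun w => (yT F k N w, (F.T1 k w.1, F.Z w.1))) hl k (J - k)
    rw [Nat.sub_add_cancel hk] at r1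
    have r2 : CH (pT F k N) (fun w => F.D J w.1) (fun w => (yT F k N w, (F.T w.1, F.Z w.1))) ≤
        CH (pT F k N) (Fl (fun w : F.Ω × (Fin N → F.Ω) => F.d w.1) J)
          (fun w => (yT F k N w, (F.T1 k w.1, F.Z w.1))) := by
      refine CH_mono_cond hq ?_
      intro w w' _ _ h
      simp only [Prod.mk.injEq] at h ⊢
      refine ⟨h.1, ?_, h.2.2⟩
      unfold Fam.T1
      rw [h.2.1]
    have r3 := CH_bayes hq (fun w : F.Ω × (Fin N → F.Ω) => F.D J w.1) (yT F k N)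
      (fun w => F.W w.1)
    have r4 : CH (pT F k N) (yT F k N) (fun w => w.1) ≤
        CH (pT F k N) (yT F k N) (fun w => (F.D J w.1, F.W w.1)) := by
      refine CH_mono_cond hq ?_
      intro w w' _ _ h
      simp only at h ⊢
      rw [h]
    have r5 : CH (pT F k N) (fun w => F.D J w.1) (fun w => F.W w.1) = CH F.p (F.D J) F.W :=
      hM.CH (F.D J) F.W
    have r6 := CH_bayes hp (F.D J) F.T F.Z
    have r7 := CH_le_two_pow F.isLaw F.T F.Z J F.tim
    have r8 : CH F.p F.T (fun ω => (F.l ω, F.Z ω)) ≤ CH F.p F.T (fun ω => (F.D J ω, F.Z ω)) := by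
      refine CH_mono_cond hp ?_
      intro ω ω' _ _ h
      simp only [Prod.mk.injEq] at h ⊢
      refine ⟨?_, h.2⟩
      unfold Fam.D
      rw [show F.d ω = F.d ω' from (Prod.ext_iff.mp h.1).2]
    have r9 : CH F.p (F.D J) (fun ω => (F.T ω, F.Z ω)) = CH F.p (F.D J) F.W := rfl
    have r10 : CH (pT F k N) (fun w => F.D J w.1) (fun w => (yT F k N w, F.W w.1)) =
        CH (pT F k N) (fun w => F.D J w.1) (fun w => (yT F k N w, (F.T w.1, F.Z w.1))) := rfl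
    have r11 : CH (pT F k N) (Fl (fun w : F.Ω × (Fin N → F.Ω) => F.d w.1) (J - k))
        (fun w => (yT F k N w, (F.T1 k w.1, F.Z w.1))) =
        CH (pT F k N) (fun w => Fl F.d (J - k) w.1)
          (fun w => (yT F k N w, (F.T1 k w.1, F.Z w.1))) := rfl
    unfold Fam.Tm at hTm
    unfold jT
    linarith
  · -- positions
    have hX : (Q F k N hk hl).X J = fun w => F.X J w.1 := by
      funext w
      unfold Fam.X
      rw [Q_x]
    rw [hX]
    have s1 : CH (Q F k N hk hl).p (fun w : F.Ω × (Fin N → F.Ω) => F.X J w.1)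
        (Q F k N hk hl).W ≤
        CH (pT F k N) (fun w => F.X J w.1) (fun w => (yT F k N w, F.W w.1)) := by
      change CH (pT F k N) (fun w : F.Ω × (Fin N → F.Ω) => F.X J w.1)
        (fun w => (2 ^ k * (F.T w.1 % 2 ^ (J - k)), (yT F k N w, (F.T1 k w.1, F.Z w.1)))) ≤ _
      refine CH_mono_cond hq ?_
      intro w w' _ _ h
      simp only [Prod.mk.injEq] at h ⊢
      refine ⟨h.2.1, ?_⟩
      exact Prod.ext (T_eq F k w.1 w'.1 h.1 h.2.2.1) h.2.2.2
    have s2 := CH_bayes hq (fun w : F.Ω × (Fin N → F.Ω) => F.X J w.1) (yT F k N)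
      (fun w => F.W w.1)
    have s3 : CH (pT F k N) (fun w => F.X J w.1) (fun w => F.W w.1) = CH F.p (F.X J) F.W :=
      hM.CH (F.X J) F.W
    exact s1.trans (by linarith)

end Pool.STE
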