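import Pool.Agent.H34.STE.DN

/-!
# Sticky Kakeya with shadings: the dense form with exponent one
-/

set_option autoImplicit false

namespace Pool.STE

open Finset Real MeasureTheory
open scoped RealInnerProductSpace ENNReal
open Pool.Agent.H49.Ent Pool.Agent.H32.Dense Pool.STK Pool.KA
open Pool.Agent.H53.Kak (E tube)

open DN34 in
/-- **DN1**: the exponent of the covering numbers is one. -/
theorem dn1 (hCE : CE1Stmt) (hGE : GEStmt) (hTX : TXStmt) (hTCD : TCDStmt) : DN1Stmt := by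
  intro d hd ε L hε hL
  obtain ⟨c₁, c₂, c₃, hc₁, hc₂, hc₃, hG⟩ := hGE d
  obtain ⟨M, hM, θ, C, hθ, hC, hE⟩ := hCE d hd ε L c₁ c₂ hε hL hc₁ hc₂
  obtain ⟨c₆, hc₆, hT⟩ := hTX d
  obtain ⟨C₇, hC₇, hD⟩ := hTCD d
  obtain ⟨b, hb⟩ : ∃ b, b = min c₆ 1 := ⟨_, rfl⟩
  have hb0 : 0 < b := by rw [hb]; exact lt_min hc₆ one_pos
  have hb1 : b ≤ 1 := by rw [hb]; exact min_le_right _ _
  have hb6 : b ≤ c₆ := by rw [hb]; exact min_le_left _ _
  obtain ⟨s, hs⟩ : ∃ s, s = c₃ * b := ⟨_, rfl⟩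
  have hs0 : 0 < s := by rw [hs]; positivity
  have hd0 : (0 : ℝ) < d := by exact_mod_cast hd
  have hC0 : 0 < C := by linarith
  obtain ⟨C₁, hC₁⟩ : ∃ C₁, C₁ = max (C / (c₆ * s ^ 2)) (C₇ * s ^ (-((d : ℝ) / θ))) := ⟨_, rfl⟩
  have hC₁a : C / (c₆ * s ^ 2) ≤ C₁ := by rw [hC₁]; exact le_max_left _ _
  have hC₁b : C₇ * s ^ (-((d : ℝ) / θ)) ≤ C₁ := by rw [hC₁]; exact le_max_right _ _
  have hC₁0 : 0 < C₁ := lt_of_lt_of_le (by positivity) hC₁a
  refine ⟨M, hM, (d : ℝ) / θ + 2, C₁, by positivity, hC₁0, ?_⟩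
  intro δ hδ hδ1 ι _ c e hu hsep A hcov lam X hlam hlam1 hX hmass
  have hprod := prod_ge hcov
  obtain ⟨Pr, hPr⟩ : ∃ Pr, Pr = ∏ r ∈ Finset.Ico 1 M, (A r : ℝ) := ⟨_, rfl⟩
  rw [← hPr] at hprod ⊢
  have hPr0 : 0 < Pr := by linarith
  by_cases hcase : δ ^ θ ≤ s * lam
  · -- the main case
    obtain ⟨J, hJ1, hJ2, hG'⟩ := hG δ hδ hδ1
    obtain ⟨B, hB⟩ : ∃ B, B = (s * lam) ^ 2 * C⁻¹ * δ ^ ε * Pr⁻¹ * δ ^ d := ⟨_, rfl⟩
    have hB0 : 0 ≤ B := by rw [hB]; positivity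
    have h1 := hT δ B lam hδ hδ1 hB0 hlam ι c e X hX hu hmass ?_
    · refine le_trans (ENNReal.ofReal_le_ofReal ?_) h1
      have hP : lam ^ ((d : ℝ) / θ + 2) ≤ lam ^ 2 := by
        rw [← Real.rpow_natCast lam 2]
        refine Real.rpow_le_rpow_of_exponent_ge hlam hlam1 ?_
        have : 0 ≤ (d : ℝ) / θ := by positivity
        push_cast
        linarith
      have hCi : C₁⁻¹ ≤ c₆ * s ^ 2 * C⁻¹ := by
        have := inv_anti₀ (by positivity) hC₁a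
        rw [inv_div] at this
        rwa [div_eq_mul_inv] at this
      calc C₁⁻¹ * lam ^ ((d : ℝ) / θ + 2) * δ ^ ε * Pr⁻¹ * ((Fintype.card ι : ℝ) * δ ^ d)
          ≤ (c₆ * s ^ 2 * C⁻¹) * lam ^ 2 * δ ^ ε * Pr⁻¹ * ((Fintype.card ι : ℝ) * δ ^ d) := by
            gcongr
        _ = c₆ * B * Fintype.card ι := by rw [hB]; ring
    · intro κ _ _ f k g q hf hcell hm
      have hbl1 : b * lam ≤ 1 := by nlinarith
      obtain ⟨S, V, hS, hV, hvol⟩ := hG' κ (fun i => c (f i)) (fun i => e (f i)) k g q hcell X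
        (b * lam) hX (by positivity) hbl1
        (fun i => le_trans (ENNReal.ofReal_le_ofReal (by gcongr)) (hm i))
      refine le_trans (ENNReal.ofReal_le_ofReal ?_) hvol
      have hsl : c₃ * (b * lam) = s * lam := by rw [hs]; ring
      have h2 := hE δ J hδ hδ1 hJ1 hJ2 κ (fun i => c (f i)) (fun i => e (f i)) k g q hcell
        (fun i i' hii => hsep (f i) (f i') (fun h => hii (hf h))) A (covM_comp hcov f) (s * lam) S
        hcase (fun i => ⟨(hS i).1, by rw [← hsl]; exact (hS i).2⟩) V hV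
      rw [← hPr] at h2
      rw [hsl]
      have h2J : (0 : ℝ) < 2 ^ J := by positivity
      have hδε : (0 : ℝ) < δ ^ ε := Real.rpow_pos_of_pos hδ _
      have e1 : δ ^ (-ε) = (δ ^ ε)⁻¹ := Real.rpow_neg hδ.le _
      rw [e1] at h2
      rw [hB]
      have h3 : (Fintype.card κ : ℝ) * (s * lam * 2 ^ J) * (C⁻¹ * δ ^ ε * Pr⁻¹) ≤ V.card := by
        calc (Fintype.card κ : ℝ) * (s * lam * 2 ^ J) * (C⁻¹ * δ ^ ε * Pr⁻¹)
            ≤ (C * (δ ^ ε)⁻¹ * Pr * V.card) * (C⁻¹ * δ ^ ε * Pr⁻¹) := by gcongr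
          _ = V.card := by field_simp
      calc (s * lam) ^ 2 * C⁻¹ * δ ^ ε * Pr⁻¹ * δ ^ d * (Fintype.card κ : ℝ)
          = s * lam * δ ^ d * ((2 : ℝ) ^ J)⁻¹ *
            ((Fintype.card κ : ℝ) * (s * lam * 2 ^ J) * (C⁻¹ * δ ^ ε * Pr⁻¹)) := by
            field_simp
        _ ≤ s * lam * δ ^ d * ((2 : ℝ) ^ J)⁻¹ * V.card := by gcongr
  · -- small density
    push Not at hcase
    rcases isEmpty_or_nonempty ι with hι | ⟨⟨i₀⟩⟩
    · simp
    have h1 : ENNReal.ofReal (lam * δ ^ d) ≤ volume X :=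
      (hmass i₀).trans (measure_mono (fun x hx => hx.1))
    refine le_trans (ENNReal.ofReal_le_ofReal ?_) h1
    have hN := hD δ hδ hδ1 ι e hu hsep
    have hNd : (Fintype.card ι : ℝ) * δ ^ d ≤ C₇ := by
      calc (Fintype.card ι : ℝ) * δ ^ d ≤ C₇ * (δ ^ d)⁻¹ * δ ^ d := by gcongr
        _ = C₇ := by field_simp
    have hδε : δ ^ ε ≤ 1 := Real.rpow_le_one hδ.le hδ1.le hε.le
    have hPrK : Pr⁻¹ ≤ 1 := inv_le_one_of_one_le₀ hprod
    have hl : lam ≤ s⁻¹ * δ ^ θ := by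
      rw [inv_mul_eq_div, le_div_iff₀ hs0]
      linarith
    have hP : lam ^ ((d : ℝ) / θ) ≤ s ^ (-((d : ℝ) / θ)) * δ ^ d := by
      calc lam ^ ((d : ℝ) / θ) ≤ (s⁻¹ * δ ^ θ) ^ ((d : ℝ) / θ) :=
            Real.rpow_le_rpow hlam.le hl (by positivity)
        _ = s ^ (-((d : ℝ) / θ)) * δ ^ d := by
            rw [Real.mul_rpow (by positivity) (by positivity), ← Real.rpow_mul hδ.le,
              Real.inv_rpow hs0.le, Real.rpow_neg hs0.le]
            congr 1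
            rw [mul_div_cancel₀ _ hθ.ne', Real.rpow_natCast]
    have hsplit : lam ^ ((d : ℝ) / θ + 2) ≤ lam ^ ((d : ℝ) / θ) * lam := by
      rw [Real.rpow_add hlam]
      refine mul_le_mul_of_nonneg_left ?_ (by positivity)
      have : lam ^ (2 : ℝ) = lam ^ 2 := by exact_mod_cast Real.rpow_natCast lam 2
      rw [this]
      nlinarith
    calc C₁⁻¹ * lam ^ ((d : ℝ) / θ + 2) * δ ^ ε * Pr⁻¹ * ((Fintype.card ι : ℝ) * δ ^ d)
        ≤ C₁⁻¹ * ((s ^ (-((d : ℝ) / θ)) * δ ^ d) * lam) * 1 * 1 * C₇ := by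
          have : lam ^ ((d : ℝ) / θ + 2) ≤ (s ^ (-((d : ℝ) / θ)) * δ ^ d) * lam :=
            hsplit.trans (mul_le_mul_of_nonneg_right hP hlam.le)
          gcongr
      _ = C₁⁻¹ * (C₇ * s ^ (-((d : ℝ) / θ))) * (lam * δ ^ d) := by ring
      _ ≤ C₁⁻¹ * C₁ * (lam * δ ^ d) := by gcongr
      _ = lam * δ ^ d := by rw [inv_mul_cancel₀ hC₁0.ne', one_mul]

end Pool.STE
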